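import Pool.Agent.N496.CV.ConvB
import Pool.Agent.N496.LT.Stm

/-!
# Project LT, piece P4B: Betti numbers of the quotients of the Davis complex
-/

set_option autoImplicit false

noncomputable section

namespace Run7.h639.LT.P4B

open Module Pool.Agent.W907.SG Pool.Agent.W461.SGN Pool.Agent.N496.LT Pool.Agent.N496.CV
  Pool.Agent.N496.CV.CB
open Pool.Agent.Y132.SI (aa aa_mk)

/-! ### linear algebra -/

theorem finrank_inf_ker {F C C' : Type} [Field F] [AddCommGroup C] [Module F C] [AddCommGroup C']
    [Module F C'] [FiniteDimensional F C] (K : Submodule F C) (f : C →ₗ[F] C') :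
    finrank F (K ⊓ LinearMap.ker f : Submodule F C) + finrank F (K.map f) = finrank F K := by
  have h := LinearMap.finrank_range_add_finrank_ker (f.domRestrict K)
  have h1 : LinearMap.range (f.domRestrict K) = K.map f := LinearMap.range_domRestrict K f
  have h2 : (LinearMap.ker (f.domRestrict K)).map K.subtype = K ⊓ LinearMap.ker f := by
    ext x
    constructor
    · rintro ⟨y, hy, rfl⟩
      exact ⟨y.2, hy⟩
    · rintro ⟨hx, hx'⟩
      exact ⟨⟨x, hx⟩, hx', rfl⟩
  have h3 := Submodule.finrank_map_subtype_eq K (LinearMap.ker (f.domRestrict K))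
  rw [h2] at h3
  rw [h1, ← h3] at h
  omega

/-- the number of rows of a matrix and its rank, transported to a complex of subspaces -/
theorem rank_of_rows {F I J C : Type} [Field F] [Fintype I] [Fintype J] [AddCommGroup C]
    [Module F C] [FiniteDimensional F C] (A : Matrix I J F) (E : (I → F) →ₗ[F] C)
    (T : (J → F) →ₗ[F] C) (d : C →ₗ[F] C) (hE : Function.Injective E)
    (hT : Function.Injective T) (h : ∀ v, d (E v) = T (Matrix.vecMul v A)) :
    finrank F (LinearMap.range E) = Fintype.card I ∧
      finrank F ((LinearMap.range E).map d) = A.rank := by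
  classical
  constructor
  · rw [LinearMap.finrank_range_of_inj hE, Module.finrank_fintype_fun_eq_card]
  · have h1 : (LinearMap.range E).map d = (LinearMap.range A.vecMulLinear).map T := by
      ext x
      constructor
      · rintro ⟨_, ⟨v, rfl⟩, rfl⟩
        exact ⟨_, ⟨v, rfl⟩, (h v).symm⟩
      · rintro ⟨_, ⟨v, rfl⟩, rfl⟩
        exact ⟨_, ⟨v, rfl⟩, h v⟩
    have h2 : finrank F ((LinearMap.range A.vecMulLinear).map T) =
        finrank F (LinearMap.range A.vecMulLinear) :=
      (LinearEquiv.finrank_eq (Submodule.equivMapOfInjective T hT _)).symm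
    rw [h1, h2, ← Matrix.rank_transpose, Matrix.rank, Matrix.mulVecLin_transpose]

/-! ### the comparison map -/

section main

variable {V F : Type} [Fintype V] [LinearOrder V] [Field F] {G : SimpleGraph V}
  (N : Subgroup (th G).ker) [N.Normal]

/-- pull back to the kernel -/
def lft (v : (davis G).ι × ((th G).ker ⧸ N) → F) (i : (davis G).ι) (g : (th G).ker) : F :=
  v (i, QuotientGroup.mk g)

omit [Fintype V] [LinearOrder V] in
theorem coeff_sum [Fintype ((th G).ker ⧸ N)] (f : (th G).ker ⧸ N → F) (g : (th G).ker)
    (a : MonoidAlgebra ℤ (th G).ker) :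
    ∑ q, f q * (((MonoidAlgebra.mapDomainRingHom ℤ (QuotientGroup.mk' N) a).coeff
      (q⁻¹ * QuotientGroup.mk g) : ℤ) : F) =
      a.coeff.sum fun γ n => n • f (QuotientGroup.mk (g * γ⁻¹)) := by
  classical
  let φ : MonoidAlgebra ℤ (th G).ker →+ F :=
    { toFun := fun a => ∑ q, f q * (((MonoidAlgebra.mapDomainRingHom ℤ (QuotientGroup.mk' N) a).coeff
        (q⁻¹ * QuotientGroup.mk g) : ℤ) : F)
      map_zero' := by simp
      map_add' := fun a b => by
        simp only [map_add, MonoidAlgebra.coeff_add, Finsupp.add_apply, Int.cast_add, mul_add,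
          Finset.sum_add_distrib] }
  let ψ : MonoidAlgebra ℤ (th G).ker →+ F :=
    { toFun := fun a => a.coeff.sum fun γ n => n • f (QuotientGroup.mk (g * γ⁻¹))
      map_zero' := by simp
      map_add' := fun a b => by
        rw [MonoidAlgebra.coeff_add]
        exact Finsupp.sum_add_index' (fun _ => zero_smul _ _) (fun _ _ _ => add_smul _ _ _) }
  have h : φ = ψ := by
    apply MonoidAlgebra.addMonoidHom_ext
    intro γ n
    show (∑ q, f q * (((MonoidAlgebra.mapDomainRingHom ℤ (QuotientGroup.mk' N)
      (MonoidAlgebra.single γ n)).coeff (q⁻¹ * QuotientGroup.mk g) : ℤ) : F)) =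
      (MonoidAlgebra.single γ n).coeff.sum fun γ n => n • f (QuotientGroup.mk (g * γ⁻¹))
    rw [MonoidAlgebra.coeff_single, Finsupp.sum_single_index (by simp)]
    have h1 : MonoidAlgebra.mapDomainRingHom ℤ (QuotientGroup.mk' N) (MonoidAlgebra.single γ n) =
        MonoidAlgebra.single (QuotientGroup.mk γ : (th G).ker ⧸ N) n := by
      simp [MonoidAlgebra.mapDomainRingHom]
    rw [h1, Finset.sum_eq_single (QuotientGroup.mk (g * γ⁻¹) : (th G).ker ⧸ N)]
    · have h2 : ((QuotientGroup.mk (g * γ⁻¹) : (th G).ker ⧸ N))⁻¹ * QuotientGroup.mk g =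
          (QuotientGroup.mk γ : (th G).ker ⧸ N) := by
        rw [← QuotientGroup.mk_inv, ← QuotientGroup.mk_mul]
        congr 1
        group
      rw [h2, MonoidAlgebra.coeff_single, Finsupp.single_eq_same, zsmul_eq_mul, mul_comm]
    · intro q _ hq
      rw [MonoidAlgebra.coeff_single, Finsupp.single_eq_of_ne, Int.cast_zero, mul_zero]
      intro h3
      apply hq
      rw [QuotientGroup.mk_mul, QuotientGroup.mk_inv]
      rw [← h3]
      group
    · intro h0
      exact absurd (Finset.mem_univ _) h0
  exact DFunLike.congr_fun h a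

theorem mulD_lft [Fintype ((th G).ker ⧸ N)] (v : (davis G).ι × ((th G).ker ⧸ N) → F) :
    mulD (lft N v) = lft N (Matrix.vecMul v (((davis G).quot N).mat F)) := by
  funext j g
  unfold mulD lft Matrix.vecMul dotProduct
  rw [Fintype.sum_prod_type]
  refine Finset.sum_congr rfl fun i _ => ?_
  exact (coeff_sum N (fun q => v (i, q)) g ((davis G).D i j)).symm

omit [Fintype V] [LinearOrder V] [N.Normal] in
theorem K_le : N.map (th G).ker.subtype ≤ (th G).ker := by
  rintro _ ⟨x, -, rfl⟩
  exact x.2

omit [Field F] in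
theorem lft_left (v : (davis G).ι × ((th G).ker ⧸ N) → F) (i : (davis G).ι) (h g : (th G).ker)
    (hh : h ∈ N) : lft N v i (h * g) = lft N v i g := by
  unfold lft
  congr 2
  rw [QuotientGroup.mk_mul, (QuotientGroup.eq_one_iff h).2 hh, one_mul]

theorem psi_left (v : (davis G).ι × ((th G).ker ⧸ N) → F) (T : Finset V) (h w : W G)
    (hh : h ∈ N.map (th G).ker.subtype) : Psi (lft N v) T (h * w) = Psi (lft N v) T w := by
  obtain ⟨n, hn, rfl⟩ := hh
  unfold Psi
  by_cases hT : G.IsClique (T : Set V)
  · rw [dif_pos hT, dif_pos hT]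
    have e0 : par G ((th G).ker.subtype n * w) = par G w := par_left _ _ n.2
    have e1 : ix T hT ((th G).ker.subtype n * w) = ix T hT w := ix_left hT _ n.2 w
    have e2 : gg T ((th G).ker.subtype n * w) = n * gg T w := gg_left T _ n.2 w
    rw [e0, e1, e2, lft_left N v _ _ _ hn]
  · rw [dif_neg hT, dif_neg hT]

/-- the set `K \ W G` -/
abbrev X : Type := Quotient (QuotientGroup.rightRel (N.map (th G).ker.subtype))

/-- the comparison map -/
def Th : ((davis G).ι × ((th G).ker ⧸ N) → F) →ₗ[F] (Finset V → X N → F) where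
  toFun v T x := Psi (lft N v) T x.out
  map_add' v w := by
    funext T x
    show Psi (lft N (v + w)) T x.out = Psi (lft N v) T x.out + Psi (lft N w) T x.out
    unfold Psi
    by_cases hT : G.IsClique (T : Set V)
    · rw [dif_pos hT, dif_pos hT, dif_pos hT, ← mul_add]
      rfl
    · rw [dif_neg hT, dif_neg hT, dif_neg hT, add_zero]
  map_smul' r v := by
    funext T x
    show Psi (lft N (r • v)) T x.out = r • Psi (lft N v) T x.out
    unfold Psi
    by_cases hT : G.IsClique (T : Set V)
    · rw [dif_pos hT, dif_pos hT, smul_eq_mul, mul_left_comm]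
      rfl
    · rw [dif_neg hT, dif_neg hT, smul_zero]

theorem Th_mk (v : (davis G).ι × ((th G).ker ⧸ N) → F) (T : Finset V) (w : W G) :
    Th N v T (Quotient.mk'' w) = Psi (lft N v) T w := by
  show Psi (lft N v) T (Quotient.out (Quotient.mk'' w : X N)) = _
  set y := Quotient.out (Quotient.mk'' w : X N) with hy
  have h1 : (Quotient.mk'' y : X N) = Quotient.mk'' w := Quotient.out_eq' _
  have h2 := Quotient.exact' h1
  rw [QuotientGroup.rightRel_apply] at h2
  have h3 := psi_left N v T (w * y⁻¹) y h2
  rw [inv_mul_cancel_right] at h3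
  exact h3.symm

theorem Th_inj : Function.Injective (Th (F := F) N) := by
  intro v v' h
  have h1 : Psi (lft N v) = Psi (lft N v') := by
    funext T w
    rw [← Th_mk, ← Th_mk, h]
  have h2 := psi_inj h1
  funext x
  obtain ⟨i, q⟩ := x
  induction q using QuotientGroup.induction_on with
  | H g => exact congrFun (congrFun h2 i) g

theorem bd_Th [Fintype ((th G).ker ⧸ N)] (v : (davis G).ι × ((th G).ker ⧸ N) → F) :
    bd F (Th N v) = Th N (Matrix.vecMul v (((davis G).quot N).mat F)) := by
  funext T x
  induction x using Quotient.inductionOn' with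
  | h w =>
    rw [Th_mk, ← mulD_lft, psi_mulD, bd_apply, Finset.sum_apply]
    refine Finset.sum_congr rfl fun t _ => ?_
    rw [Pi.smul_apply, Th_mk]

/-- the rows in the degree `n` -/
abbrev Rw (n : ℕ) : Type := {x : (davis G).ι × ((th G).ker ⧸ N) // (davis G).deg x.1 = n}

/-- extension by zero -/
def ext (n : ℕ) : (Rw N n → F) →ₗ[F] ((davis G).ι × ((th G).ker ⧸ N) → F) where
  toFun v x := if h : (davis G).deg x.1 = n then v ⟨x, h⟩ else 0
  map_add' v w := by
    funext x
    simp only [Pi.add_apply]
    split_ifs <;> simp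
  map_smul' r v := by
    funext x
    simp only [Pi.smul_apply, RingHom.id_apply]
    split_ifs <;> simp

omit [N.Normal] in
theorem ext_inj (n : ℕ) : Function.Injective (ext (F := F) N n) := by
  intro v w h
  funext x
  have h1 := congrFun h x.1
  have e : ∀ u : Rw N n → F, ext N n u x.1 = u x := fun u => dif_pos x.2
  rwa [e, e] at h1

omit [N.Normal] in
theorem ext_vecMul [Fintype ((th G).ker ⧸ N)] (n : ℕ) (v : Rw N n → F)
    (M : Matrix ((davis G).ι × ((th G).ker ⧸ N)) ((davis G).ι × ((th G).ker ⧸ N)) F) :
    Matrix.vecMul (ext N n v) M =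
      Matrix.vecMul v (M.submatrix (fun x : Rw N n => x.1) id) := by
  funext j
  unfold Matrix.vecMul dotProduct
  have h1 := sum_deg (fun x : (davis G).ι × ((th G).ker ⧸ N) => (davis G).deg x.1) n
    (fun x => ext N n v x * M x j) (fun x hx => by
      have : ext N n v x = 0 := dif_neg hx
      rw [this, zero_mul])
  rw [← h1]
  refine Finset.sum_congr rfl fun x _ => ?_
  have : ext N n v x.1 = v x := dif_pos x.2
  rw [this]
  rfl

theorem range_eq [Fintype (X N)] (n : ℕ) :
    LinearMap.range ((Th (F := F) N).comp (ext N n)) =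
      KK G (pull F (aa G (N.map (th G).ker.subtype))) Set.univ ∅ n := by
  classical
  apply le_antisymm
  · rintro _ ⟨v, rfl⟩
    rw [mem_KK]
    refine ⟨fun T hT => ?_, fun T t ht => ?_⟩
    · funext x
      show Psi (lft N (ext N n v)) T x.out = 0
      unfold Psi
      by_cases hc : G.IsClique (T : Set V)
      · rw [dif_pos hc]
        have h1 : ¬ (davis G).deg (ix T hc x.out) = n := fun h =>
          hT ⟨hc, Set.subset_univ _, h⟩
        have h2 : lft N (ext N n v) (ix T hc x.out) (gg T x.out) = 0 := dif_neg h1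
        rw [h2, mul_zero]
      · rw [dif_neg hc]
    · have ht' : t ∈ T := by
        rcases ht with ht | ht
        · exact ht
        · exact absurd ht (Set.notMem_empty t)
      funext x
      rw [pull_apply]
      induction x using Quotient.inductionOn' with
      | h w =>
        rw [aa_mk]
        show Th N (ext N n v) T _ = - Th N (ext N n v) T _
        rw [Th_mk, Th_mk]
        exact psi_anti _ T ht' w
  · intro c hc
    rw [mem_KK] at hc
    obtain ⟨h1, h2⟩ := hc
    have hch : IsCh G Set.univ (InM (N.map (th G).ker.subtype) (1 : _ →* F) Set.univ ⊥) n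
        (fun T w => c T (Quotient.mk'' w)) := by
      refine ⟨fun T hT => ?_, fun T => ⟨fun _ _ => trivial, fun p hp w => ?_, fun h w => ?_, ?_⟩,
        fun T t ht w => ?_⟩
      · funext w
        show c T _ = 0
        rw [h1 T hT]
        rfl
      · rw [Subgroup.mem_bot] at hp
        rw [hp]
        simp
      · have : (Quotient.mk'' ((h : W G) * w) : X N) = Quotient.mk'' w := by
          apply Quotient.sound'
          rw [QuotientGroup.rightRel_apply]
          have : w * ((h : W G) * w)⁻¹ = (h : W G)⁻¹ := by group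
          rw [this]
          exact Subgroup.inv_mem _ h.2
        show c T _ = c T _ * _
        rw [this]
        simp
      · refine ⟨(Finset.univ : Finset (X N)).image Quotient.out, fun w _ => ?_⟩
        set y := Quotient.out (Quotient.mk'' w : X N) with hy
        have h3 : (Quotient.mk'' y : X N) = Quotient.mk'' w := Quotient.out_eq' _
        have h4 := Quotient.exact' h3
        rw [QuotientGroup.rightRel_apply] at h4
        refine ⟨⟨w * y⁻¹, h4⟩, y, Finset.mem_image.2 ⟨_, Finset.mem_univ _, rfl⟩, 1,
          Subgroup.one_mem _, ?_⟩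
        simp
      · have h3 := congrFun (h2 T t (Or.inl ht)) (Quotient.mk'' w)
        rw [pull_apply, aa_mk] at h3
        exact h3
    obtain ⟨v', hv', hP⟩ := psi_surj (N.map (th G).ker.subtype) (1 : _ →* F) (K_le N) n _ hch
    refine ⟨fun x => v' x.1.1 x.1.2.out, ?_⟩
    have h3 : lft N (ext N n fun x : Rw N n => v' x.1.1 x.1.2.out) = v' := by
      funext i g
      unfold lft
      by_cases hi : (davis G).deg i = n
      · have e1 : ext N n (fun x : Rw N n => v' x.1.1 x.1.2.out) (i, QuotientGroup.mk g) =
            v' i (QuotientGroup.mk g : (th G).ker ⧸ N).out := dif_pos hi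
        rw [e1]
        obtain ⟨m, hm⟩ := QuotientGroup.mk_out_eq_mul N g
        have h4 : (g * (m : (th G).ker) * g⁻¹) ∈ N :=
          (inferInstance : N.Normal).conj_mem _ m.2 g
        have h5 := hv'.eqK i ⟨((g * (m : (th G).ker) * g⁻¹ : (th G).ker) : W G),
          ⟨_, h4, rfl⟩⟩ g (QuotientGroup.mk g : (th G).ker ⧸ N).out (by
            rw [hm]
            simp)
        rw [h5]
        simp
      · have e1 : ext N n (fun x : Rw N n => v' x.1.1 x.1.2.out) (i, QuotientGroup.mk g) = 0 :=
          dif_neg hi
        rw [e1, hv'.deg i hi]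
        rfl
    funext T x
    induction x using Quotient.inductionOn' with
    | h w =>
      show Th N (ext N n fun x : Rw N n => v' x.1.1 x.1.2.out) T _ = _
      rw [Th_mk, h3, hP]

end main

theorem main : Pool.Agent.N496.LT.P4B := by
  intro V F _ _ _ G N _ _ _ n _
  classical
  have key : ∀ m, finrank F (KK G (pull F (aa G (N.map (th G).ker.subtype))) Set.univ ∅ m) =
      Fintype.card {i : (davis G).ι // (davis G).deg i = m} * Fintype.card ((th G).ker ⧸ N) ∧
      finrank F ((KK G (pull F (aa G (N.map (th G).ker.subtype))) Set.univ ∅ m).map (bd F)) =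
        ((davis G).quot N).rk F m := by
    intro m
    have h := rank_of_rows ((((davis G).quot N).mat F).submatrix (fun x : Rw N m => x.1) id)
      ((Th (F := F) N).comp (ext N m)) (Th N) (bd F) ((Th_inj N).comp (ext_inj N m)) (Th_inj N)
      (fun v => (bd_Th N (ext N m v)).trans (congrArg (Th N) (ext_vecMul N m v _)))
    rw [range_eq] at h
    refine ⟨?_, h.2⟩
    rw [h.1, ← Fintype.card_prod]
    exact Fintype.card_congr (Equiv.prodSubtypeFstEquivSubtypeProd
      (p := fun i : (davis G).ι => (davis G).deg i = m))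
  have h1 := finrank_inf_ker (KK G (pull F (aa G (N.map (th G).ker.subtype))) Set.univ ∅ n) (bd F)
  have h2 : finrank F (BB G (pull F (aa G (N.map (th G).ker.subtype))) Set.univ ∅ n) ≤
      finrank F (ZZ G (pull F (aa G (N.map (th G).ker.subtype))) Set.univ ∅ n) :=
    Submodule.finrank_mono (BB_le_ZZ _ _ _ _ _)
  unfold beta
  rw [Nat.cast_sub h2]
  have h3 : finrank F (BB G (pull F (aa G (N.map (th G).ker.subtype))) Set.univ ∅ n) =
    ((davis G).quot N).rk F (n + 1) := (key (n + 1)).2
  have h4 : finrank F (ZZ G (pull F (aa G (N.map (th G).ker.subtype))) Set.univ ∅ n) +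
      ((davis G).quot N).rk F n = Fintype.card {i : (davis G).ι // (davis G).deg i = n} *
        Fintype.card ((th G).ker ⧸ N) := by
    rw [← (key n).1, ← (key n).2]
    exact h1
  rw [h3]
  show (Fintype.card {i : (davis G).ι // (davis G).deg i = n} : ℤ) * Fintype.card ((th G).ker ⧸ N)
    - ((davis G).quot N).rk F n - ((davis G).quot N).rk F (n + 1) = _
  have h5 : ((finrank F (ZZ G (pull F (aa G (N.map (th G).ker.subtype))) Set.univ ∅ n) : ℕ) : ℤ) +
      ((((davis G).quot N).rk F n : ℕ) : ℤ) =
      (Fintype.card {i : (davis G).ι // (davis G).deg i = n} : ℤ) *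
        Fintype.card ((th G).ker ⧸ N) := by exact_mod_cast h4
  linarith

end Run7.h639.LT.P4B
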